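import Pool.Agent.R24.HamSeq

/-!
# MP_b9f640_co : infinitely many cubic graphs with Hamiltonian extension number 5

For every odd `m` the `m`-fold cyclic cover of the dodecahedron with voltages `-2` and `-1` on two
edges (and `0` on the others) has Hamiltonian extension number `5`: every Hamiltonian cycle of the
dodecahedron has total voltage `1`, `-1`, `2` or `-2`, hence lifts to a Hamiltonian cycle of the cover,
and every path with five vertices of the dodecahedron lies on a Hamiltonian cycle.
-/

set_option autoImplicit false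

namespace Pool.Agent.Results.MP_b9f640_co.CyclicCovers

/-- Every path of order `i` (that is, with `i` vertices) of `G` lies on some Hamiltonian cycle of
`G`: all its vertices and all its edges belong to the cycle. -/
def PathsExtend {V : Type*} [DecidableEq V] (G : SimpleGraph V) (i : ℕ) : Prop :=
  ∀ (u v : V) (p : G.Walk u v), p.IsPath → p.length + 1 = i →
    ∃ (w : V) (c : G.Walk w w), c.IsHamiltonianCycle ∧ (∀ x ∈ p.support, x ∈ c.support) ∧
      ∀ e ∈ p.edges, e ∈ c.edges

/-- The Hamiltonian extension number: the largest `k` with `1 ≤ k ≤ |V|` such that for every `i`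
with `1 ≤ i ≤ k` every path of order `i` lies on a Hamiltonian cycle. -/
noncomputable def he {V : Type*} [Fintype V] [DecidableEq V] (G : SimpleGraph V) : ℕ :=
  sSup {k : ℕ | 1 ≤ k ∧ k ≤ Fintype.card V ∧ ∀ i, 1 ≤ i → i ≤ k → PathsExtend G i}

/-! ### the dodecahedron, its voltages and Hamiltonian cycles -/

/-- encoded adjacency lists -/
def NB : ℕ := 0x8ad305226f3c9c68b4b0611eb1b9429b43260268049278a0d0395e6238a36904c1856202921
/-- encoded voltages -/
def VL : ℕ := 0x512492492492493492052492492492492492492492492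
/-- encoded Hamiltonian cycles -/
def CY : ℕ := 0x4432398a940c57b57389d0902671794836ac2263a063a24a005734a250710a63c5ed1898a02507314836be335844c7424a026717b56110c8531d128398a00443214d07315241e2f6ae6902512838836bca63c66b0898a0056d794d07106262a483c6690056d79483131d031e334a24a0044c54a0e20dab9c5e531d090044c7106d5cd283c5e53424a0266b0886d7c4e8940c52398a004436ae6944a063c5e52398a0057389cd0710af68c4c549090056d1898e215f19a5073424a4a0f19adaf29a12531c41882054907341cc1056d190af8cd20530436be273148e849099ac2054a0e6082b9c5ed190a63a120531d0920e6290620adaf8cd204cd6d7c4e89298e818a418820530415ce27315ed191d0921204ce274494c10c8e818af6ac20549099c4e683982190af6ac204a0e62be335b4647424a6082054a062be274266b68c8e60820531c429a1241e2f68c415cd20531c42be27342484cd6d188204a24a6086d7948e818f19ac2054a063a1338bca4730436ac20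
/-- encoded positions of the paths with five vertices in the Hamiltonian cycles -/
def WT : ℕ := 0xca840001c10600000001b949c0005c0074400000000000000000000007840092000000000018658400000002b83e0022c54000000000000000000000000002e21c0000000000590000c905790000000000278c60000000000000000000000000000000000035e09000f61a400000000c52d001200004800000000000000000000001e80024f00000000005099e00000001163b8000486200000000000000000000000006955e0000000000770000949a2fc000000000231001f800000000000000000000000000000091c00658002b54f00000000860000b81000274000000000000000000000000000000c2000cb002113f4000000017471000350010700000000000000000000000456e800608004a00000000568180000000000748008880000000000000000000000000000024e0019d000ed04400000005740076d6e001f70000000000000000000000000000002ec00360006b20a000000001b3dc001a80024c000000000000000000000020c32001124b800000000017e484000000000049001ec0000000000654e50000a80c00000000000000000000000000000044604005640088400000000000000000000004900030c0000000000cc6cc000000075a120001f00173000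000000000000000000005e240002a4720000000000520360000000000420001f000000000019c3b000769f600000000000000000000000000000020911001c3001eb000000000000000000000011d000bc00000000001343900000001386b40082c0062c000000000000000000000001c1c0016a3e00000000000a515000000000009400252000e48080000000000438800000000000000000000000000000008f2a00051c001ec001b92500000000000b0c4000000000000000000000000000000430cd0013c720000000000000000000000000199620008ee13000000000000c2000000000005d00058c003adf50000000000205ea000000000000000000000000000000019690005300251000674780000000000232600000000000000000000000000000004e2c8004083a000000000000000000000000051139001bf6b80000000001cd8dc00000000018c68000000000000083c6f001260580000000000000000000000000000002d000585e00031601001e200000000002387a00000000000000000000000000000061e3a000020016200000000000000000000000e82bc000fcce00000000004f62d001c954400000000000000000002081a0004b11f0000000000000000000000000000006900009099002307d0007a4000000000154940000000000000000000000000000001436f8007300067c00000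0000000000000000036c4f000b3000ef000000010304c0018c3b0000000000000000000032505001b869c000000078000580000f62b00000000000000000000000002842f001402200000000000000000000000000000024416800000000000d000dd868009097a001de00000000000000000000000000000009c9f0007731c00000000000000000000d6288000c04700000001e700141001152240000000000000000000000001316980057e2a000000000000000000000000000000865dd000000000009876000009149b000c016c0000000000000000000000000000000e8c8000000000191000de0000000000918ac000852700000000000c13f00017034000000000000000000000000035446001bb45000000004c1830000000000860001d400000000000000000000000000f56c006a819000000000000000000000000000000649d3000000000088c0037c00000000024d040005716d00000000002e9ab0001a2480000000000000000000000000ab210003ec3300000000d444c004bc001d0000000000000000000000000000001930017f00122750000000000000000000000000000002241280000000000e0001ed00194024000000000180560000000048c006c8007541e000000000000000000000000017d6c000b924400000002a8fa000d31cc0000000000000000000000000000000089400524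000dd360000000000000000000000000000003850900000000001f4007b80066dd90000000000529c2000000011c000380013762800000000000000000000000200055c006c41d000000016b2e0003e4d2000000000000000000000000000000000e2000a6154004280000000000000000000000000000007e2540000000001fd001ef38c001080000000000a75186d0002b000000000042d3b000000000000000000000019a001c10011b62400000008f1b0000b7344000000000000000000000000000000001fc0001021001000000000000000000000000000000005d5fe0000000000591f0000ea00080000000000001452198000880000000000b14040000000000000000000000104005142a0013a00000001c0468006bcb6000000000000000000000000000000001ce001767fc008e00000000000000000000000000000018d594007c5a100000000000020e0540000000000f15de000007900000000008e40100000000000000000000000e900051194002c0000000010029001192d4000000000000000000000000000000004f8006d9660022e00000001ca7c800548006880000000000000000000000000000000086d3f00000000006de4381c0059c00000000022f77c0000000000000000000000000c872c007cc3c00000000a054c000000000257000dc0000000000000000000000014000f01e000000000000014064000282d000000000000000000000000000000000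

/-- the `k`-th neighbour of `a` in the dodecahedron -/
def nb (a : Fin 20) (k : Fin 3) : Fin 20 := Fin.ofNat 20 ((NB >>> (5 * (3 * a.val + k.val))) % 32)
/-- the voltage of the edge from `a` to its `k`-th neighbour -/
def vl (a : Fin 20) (k : Fin 3) : ℤ := (((VL >>> (3 * (3 * a.val + k.val))) % 8 : ℕ) : ℤ) - 2
/-- the `t`-th vertex of the `j`-th Hamiltonian cycle -/
def cy (j : ℕ) (t : ℕ) : Fin 20 := Fin.ofNat 20 ((CY >>> (5 * (20 * j + t % 20))) % 32)
/-- the index `k` with `nb a k = b` -/
def ix (a b : Fin 20) : Fin 3 := if nb a 0 = b then 0 else if nb a 1 = b then 1 else 2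
/-- voltage of the step from position `t` to position `t + 1` in the `j`-th Hamiltonian cycle -/
def wv (j : ℕ) (t : ℕ) : ℤ := vl (cy j t) (ix (cy j t) (cy j (t + 1)))
/-- witness code of a path -/
def wit (a : Fin 20) (k0 k1 k2 k3 : Fin 3) : ℕ :=
  (WT >>> (10 * ((((a.val * 3 + k0.val) * 3 + k1.val) * 3 + k2.val) * 3 + k3.val))) % 1024

theorem nb_inj : ∀ (a : Fin 20) (k l : Fin 3), nb a k = nb a l → k = l := by decide

theorem nb_symm : ∀ (a : Fin 20) (k : Fin 3), ∃ l, nb (nb a k) l = a ∧ vl (nb a k) l = -vl a k := by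
  decide

theorem nb_ne : ∀ (a : Fin 20) (k : Fin 3), nb a k ≠ a := by decide

theorem cy_inj : ∀ j < 30, ∀ s : Fin 20, ∀ t : Fin 20, cy j s = cy j t → s = t := by decide +kernel

theorem cy_adj : ∀ j < 30, ∀ t : Fin 20, nb (cy j t) (ix (cy j t) (cy j (t + 1 : ℕ))) = cy j (t + 1 : ℕ) := by
  decide +kernel

theorem wv_sum : ∀ j < 30, (∑ i ∈ Finset.range 20, wv j i = 1 ∨ ∑ i ∈ Finset.range 20, wv j i = -1) ∨
    (∑ i ∈ Finset.range 20, wv j i = 2 ∨ ∑ i ∈ Finset.range 20, wv j i = -2) := by
  decide +kernel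

theorem cover : ∀ (a : Fin 20) (k0 k1 k2 k3 : Fin 3), nb (nb a k0) k1 ≠ a →
    nb (nb (nb a k0) k1) k2 ≠ nb a k0 → nb (nb (nb (nb a k0) k1) k2) k3 ≠ nb (nb a k0) k1 →
    wit a k0 k1 k2 k3 / 20 < 30 ∧ cy (wit a k0 k1 k2 k3 / 20) (wit a k0 k1 k2 k3 % 20) = a ∧
    cy (wit a k0 k1 k2 k3 / 20) (wit a k0 k1 k2 k3 % 20 + 1) = nb a k0 ∧
    cy (wit a k0 k1 k2 k3 / 20) (wit a k0 k1 k2 k3 % 20 + 2) = nb (nb a k0) k1 ∧
    cy (wit a k0 k1 k2 k3 / 20) (wit a k0 k1 k2 k3 % 20 + 3) = nb (nb (nb a k0) k1) k2 ∧
    cy (wit a k0 k1 k2 k3 / 20) (wit a k0 k1 k2 k3 % 20 + 4) = nb (nb (nb (nb a k0) k1) k2) k3 := by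
  decide +kernel

theorem cy_per (j n : ℕ) : cy j (n + 20) = cy j n := by
  unfold cy; rw [Nat.add_mod_right]

theorem cy_mod (j n : ℕ) : cy j (n % 20) = cy j n := by
  unfold cy; rw [Nat.mod_mod]

theorem wv_mod (j n : ℕ) : wv j (n % 20) = wv j n := by
  unfold wv
  rw [cy_mod]
  congr 2
  rw [← cy_mod j (n % 20 + 1), ← cy_mod j (n + 1)]
  congr 1
  omega

theorem adj_all (j : ℕ) (hj : j < 30) (n : ℕ) :
    nb (cy j n) (ix (cy j n) (cy j (n + 1))) = cy j (n + 1) := by
  have h := cy_adj j hj ⟨n % 20, Nat.mod_lt _ (by norm_num)⟩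
  simp only at h
  rw [cy_mod] at h
  have h2 : cy j (n % 20 + 1) = cy j (n + 1) := by
    rw [← cy_mod j (n % 20 + 1), ← cy_mod j (n + 1)]
    congr 1
    omega
  rwa [h2] at h

/-- partial sums of the voltages -/
def ps (j n : ℕ) : ℤ := ∑ i ∈ Finset.range n, wv j i

theorem ps_succ (j n : ℕ) : ps j (n + 1) = ps j n + wv j n := Finset.sum_range_succ _ _

theorem ps_add (j n : ℕ) : ps j (n + 20) = ps j n + ps j 20 := by
  induction n with
  | zero => simp [ps]
  | succ n ih =>
    rw [show n + 1 + 20 = (n + 20) + 1 by ring, ps_succ, ih, ps_succ j n]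
    have : wv j (n + 20) = wv j n := by
      rw [← wv_mod j (n + 20), ← wv_mod j n]; congr 1; omega
    rw [this]; ring

theorem ps_div (j q r : ℕ) : ps j (20 * q + r) = q * ps j 20 + ps j r := by
  induction q with
  | zero => simp
  | succ q ih =>
    rw [show 20 * (q + 1) + r = (20 * q + r) + 20 by ring, ps_add, ih]
    push_cast; ring

/-! ### the cyclic cover -/

/-- The `m`-fold cyclic cover of the dodecahedron with voltages `vl`. -/
def cov (m : ℕ) : SimpleGraph (Fin 20 × ZMod m) where
  Adj x y := ∃ k : Fin 3, nb x.1 k = y.1 ∧ y.2 = x.2 + (vl x.1 k : ℤ)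
  symm := ⟨by
    rintro ⟨a, x⟩ ⟨b, y⟩ ⟨k, h1, h2⟩
    simp only at h1 h2
    obtain ⟨l, h3, h4⟩ := nb_symm a k
    rw [h1] at h3 h4
    refine ⟨l, h3, ?_⟩
    simp only
    rw [h4, h2]
    push_cast; ring⟩
  loopless := ⟨by
    rintro ⟨a, x⟩ ⟨k, h1, _⟩
    exact nb_ne a k h1⟩

theorem cov_adj {m : ℕ} (a b : Fin 20) (x y : ZMod m) :
    (cov m).Adj (a, x) (b, y) ↔ ∃ k : Fin 3, nb a k = b ∧ y = x + (vl a k : ℤ) := Iff.rfl

/-- the lift of the `j`-th Hamiltonian cycle starting at height `z` -/
def lift (m j : ℕ) (z : ZMod m) (n : ℕ) : Fin 20 × ZMod m := (cy j n, z + (ps j n : ℤ))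

theorem lift_adj {m j : ℕ} (hj : j < 30) (z : ZMod m) (n : ℕ) :
    (cov m).Adj (lift m j z n) (lift m j z (n + 1)) := by
  refine ⟨ix (cy j n) (cy j (n + 1)), adj_all j hj n, ?_⟩
  simp only [lift, ps_succ, wv]
  push_cast; ring

theorem unit_sum {m j : ℕ} (hm : Odd m) (hj : j < 30) :
    ∃ u : ZMod m, ((ps j 20 : ℤ) : ZMod m) * u = 1 := by
  obtain ⟨r, rfl⟩ := hm
  have h2 : (2 : ZMod (2 * r + 1)) * (r + 1) = 1 := by
    have h := ZMod.natCast_self (2 * r + 1)
    push_cast at h
    linear_combination h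
  rcases wv_sum j hj with (h | h) | (h | h)
  · exact ⟨1, by rw [show ps j 20 = 1 from h]; simp⟩
  · exact ⟨-1, by rw [show ps j 20 = -1 from h]; simp⟩
  · exact ⟨r + 1, by rw [show ps j 20 = 2 from h]; push_cast; exact h2⟩
  · exact ⟨-(r + 1), by rw [show ps j 20 = -2 from h]; push_cast; linear_combination h2⟩

theorem lift_ham {m j : ℕ} (hm : Odd m) (hj : j < 30) (z : ZMod m) :
    ∃ (u : Fin 20 × ZMod m) (c : (cov m).Walk u u), c.IsHamiltonianCycle ∧
      ∀ e, e ∈ c.edges ↔ ∃ i, i < 20 * m ∧ e = s(lift m j z i, lift m j z (i + 1)) := by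
  obtain ⟨u, hu⟩ := unit_sum hm hj
  have hmpos : 0 < m := hm.pos
  have : NeZero m := ⟨hmpos.ne'⟩
  have hS : ∀ x y : ZMod m, x * ((ps j 20 : ℤ) : ZMod m) = y * ((ps j 20 : ℤ) : ZMod m) → x = y := by
    intro x y h
    have := congrArg (· * u) h
    simp only [mul_assoc, hu, mul_one] at this
    exact this
  have hform : ∀ i : ℕ, lift m j z i = (cy j (i % 20),
      z + ((i / 20 : ℕ) : ZMod m) * ((ps j 20 : ℤ) : ZMod m) + ((ps j (i % 20) : ℤ) : ZMod m)) := by
    intro i
    unfold lift
    rw [cy_mod]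
    congr 1
    have h1 : ps j i = ((i / 20 : ℕ) : ℤ) * ps j 20 + ps j (i % 20) := by
      conv_lhs => rw [show i = 20 * (i / 20) + i % 20 by omega, ps_div]
    rw [h1, Int.cast_add, Int.cast_mul, Int.cast_natCast]
    ring
  have hcinj : ∀ s t : ℕ, s < 20 → t < 20 → cy j s = cy j t → s = t := by
    intro s t hs ht h
    have := cy_inj j hj ⟨s, hs⟩ ⟨t, ht⟩ h
    simpa using this
  apply Pool.Agent.R24.ham_of_seq (by omega) (lift m j z) (lift_adj hj z)
  · rw [hform (20 * m), hform 0]
    simp
  · intro s t hs ht h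
    rw [hform s, hform t, Prod.mk.injEq] at h
    have h1 : s % 20 = t % 20 := hcinj _ _ (Nat.mod_lt _ (by norm_num)) (Nat.mod_lt _ (by norm_num)) h.1
    have h2 := h.2
    rw [h1] at h2
    have h3 := hS _ _ (add_left_cancel (add_right_cancel h2))
    have h4 : s / 20 = t / 20 := by
      rw [ZMod.natCast_eq_natCast_iff'] at h3
      rwa [Nat.mod_eq_of_lt (by omega), Nat.mod_eq_of_lt (by omega)] at h3
    omega
  · rintro ⟨a, x⟩
    have hsurj : Function.Surjective (fun t : Fin 20 => cy j t) :=
      Finite.injective_iff_surjective.mp (fun s t h => cy_inj j hj s t h)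
    obtain ⟨t, ht⟩ := hsurj a
    simp only at ht
    let q : ZMod m := (x - z - ((ps j t : ℤ) : ZMod m)) * u
    refine ⟨20 * q.val + t, ?_, ?_⟩
    · have := ZMod.val_lt q
      have := t.2
      omega
    · rw [hform]
      have e1 : (20 * q.val + (t : ℕ)) % 20 = t := by have := t.2; omega
      have e2 : (20 * q.val + (t : ℕ)) / 20 = q.val := by have := t.2; omega
      rw [e1, e2, ht, ZMod.natCast_val, ZMod.cast_id]
      congr 1
      have : q * ((ps j 20 : ℤ) : ZMod m) = x - z - ((ps j t : ℤ) : ZMod m) := by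
        simp only [q]
        rw [mul_assoc, mul_comm u, hu, mul_one]
      rw [this]; ring

/-- A walk of four steps without immediate reversals lies on a Hamiltonian cycle. -/
theorem nb_walk {m : ℕ} (hm : Odd m) (x0 x1 x2 x3 x4 : Fin 20 × ZMod m) (h01 : (cov m).Adj x0 x1)
    (h12 : (cov m).Adj x1 x2) (h23 : (cov m).Adj x2 x3) (h34 : (cov m).Adj x3 x4)
    (n02 : x2 ≠ x0) (n13 : x3 ≠ x1) (n24 : x4 ≠ x2) :
    ∃ (u : Fin 20 × ZMod m) (c : (cov m).Walk u u), c.IsHamiltonianCycle ∧
      s(x0, x1) ∈ c.edges ∧ s(x1, x2) ∈ c.edges ∧ s(x2, x3) ∈ c.edges ∧ s(x3, x4) ∈ c.edges := by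
  obtain ⟨k0, e0, v0⟩ := h01
  obtain ⟨k1, e1, v1⟩ := h12
  obtain ⟨k2, e2, v2⟩ := h23
  obtain ⟨k3, e3, v3⟩ := h34
  have back : ∀ (x y z : Fin 20 × ZMod m) (k l : Fin 3), nb x.1 k = y.1 → y.2 = x.2 + (vl x.1 k : ℤ) →
      nb y.1 l = z.1 → z.2 = y.2 + (vl y.1 l : ℤ) → z ≠ x → z.1 ≠ x.1 := by
    intro x y z k l h1 h2 h3 h4 hne heq
    apply hne
    obtain ⟨l', h5, h6⟩ := nb_symm x.1 k
    rw [h1] at h5 h6
    have : l = l' := nb_inj y.1 l l' (by rw [h3, h5, heq])
    subst this
    refine Prod.ext heq ?_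
    rw [h4, h6, h2]; push_cast; ring
  have b0 := back x0 x1 x2 k0 k1 e0 v0 e1 v1 n02
  have b1 := back x1 x2 x3 k1 k2 e1 v1 e2 v2 n13
  have b2 := back x2 x3 x4 k2 k3 e2 v2 e3 v3 n24
  have hc := cover x0.1 k0 k1 k2 k3 (by rw [e0, e1]; exact b0) (by rw [e0, e1, e2]; exact b1)
    (by rw [e0, e1, e2, e3]; exact b2)
  rw [e0, e1, e2, e3] at hc
  obtain ⟨hj, c0, c1, c2, c3, c4⟩ := hc
  set j := wit x0.1 k0 k1 k2 k3 / 20
  set t := wit x0.1 k0 k1 k2 k3 % 20 with ht
  have htl : t < 20 := Nat.mod_lt _ (by norm_num)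
  have stepv : ∀ (x y : Fin 20 × ZMod m) (k : Fin 3) (n : ℕ), nb x.1 k = y.1 →
      y.2 = x.2 + (vl x.1 k : ℤ) → cy j n = x.1 → cy j (n + 1) = y.1 →
      y.2 = x.2 + ((wv j n : ℤ) : ZMod m) := by
    intro x y k n h1 h2 h3 h4
    have h5 := adj_all j hj n
    rw [h3, h4] at h5
    have h6 : ix x.1 y.1 = k := nb_inj x.1 _ _ (by rw [h5, h1])
    rw [h2, wv, h3, h4, h6]
  have s0 := stepv x0 x1 k0 t e0 v0 c0 c1
  have s1 := stepv x1 x2 k1 (t + 1) e1 v1 c1 c2
  have s2 := stepv x2 x3 k2 (t + 2) e2 v2 c2 c3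
  have s3 := stepv x3 x4 k3 (t + 3) e3 v3 c3 c4
  let z : ZMod m := x0.2 - ((ps j t : ℤ) : ZMod m)
  have l0 : lift m j z t = x0 := by
    refine Prod.ext c0 ?_
    simp [lift, z]
  have lstep : ∀ (x y : Fin 20 × ZMod m) (n : ℕ), lift m j z n = x → cy j (n + 1) = y.1 →
      y.2 = x.2 + ((wv j n : ℤ) : ZMod m) → lift m j z (n + 1) = y := by
    intro x y n h1 h2 h3
    refine Prod.ext h2 ?_
    rw [h3, ← h1]
    simp only [lift, ps_succ]
    push_cast; ring
  have l1 := lstep x0 x1 t l0 c1 s0
  have l2 := lstep x1 x2 (t + 1) l1 c2 s1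
  have l3 := lstep x2 x3 (t + 2) l2 c3 s2
  have l4 := lstep x3 x4 (t + 3) l3 c4 s3
  obtain ⟨u, c, hc, hce⟩ := lift_ham hm hj z
  have hmpos : 0 < m := hm.pos
  -- positions modulo the length of the cycle
  have hperiod : ∀ n, lift m j z (n + 20 * m) = lift m j z n := by
    intro n
    unfold lift
    rw [show n + 20 * m = 20 * m + n by ring, ps_div]
    have : cy j (20 * m + n) = cy j n := by
      rw [← cy_mod j (20 * m + n), ← cy_mod j n]; congr 1; omega
    rw [this]
    simp
  have hmem : ∀ n, n < 2 * (20 * m) → s(lift m j z n, lift m j z (n + 1)) ∈ c.edges := by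
    intro n hn
    rw [hce]
    by_cases h : n < 20 * m
    · exact ⟨n, h, rfl⟩
    · refine ⟨n - 20 * m, by omega, ?_⟩
      have h1 := hperiod (n - 20 * m)
      have h2 := hperiod (n - 20 * m + 1)
      rw [show n - 20 * m + 20 * m = n by omega] at h1
      rw [show n - 20 * m + 1 + 20 * m = n + 1 by omega] at h2
      rw [h1, h2]
  refine ⟨u, c, hc, ?_, ?_, ?_, ?_⟩
  · rw [← l0, ← l1]; exact hmem t (by omega)
  · rw [← l1, ← l2]; exact hmem (t + 1) (by omega)
  · rw [← l2, ← l3]; exact hmem (t + 2) (by omega)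
  · rw [← l3, ← l4]; exact hmem (t + 3) (by omega)

/-- a neighbour of `y` different from `x` -/
theorem next {m : ℕ} (x y : Fin 20 × ZMod m) : ∃ z, (cov m).Adj y z ∧ z ≠ x := by
  by_cases h : (nb y.1 0, y.2 + ((vl y.1 0 : ℤ) : ZMod m)) = x
  · refine ⟨(nb y.1 1, y.2 + ((vl y.1 1 : ℤ) : ZMod m)), ⟨1, rfl, rfl⟩, ?_⟩
    rw [← h]
    intro h2
    have := nb_inj y.1 1 0 (congrArg Prod.fst h2)
    exact absurd this (by decide)
  · exact ⟨_, ⟨0, rfl, rfl⟩, h⟩

theorem ext_le_five {m : ℕ} (hm : Odd m) (i : ℕ) (h1 : 1 ≤ i) (h5 : i ≤ 5) :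
    PathsExtend (cov m) i := by
  intro u v p hp hlen
  suffices h : ∃ (w : Fin 20 × ZMod m) (c : (cov m).Walk w w), c.IsHamiltonianCycle ∧
      ∀ e ∈ p.edges, e ∈ c.edges by
    obtain ⟨w, c, hc, he⟩ := h
    exact ⟨w, c, hc, fun x _ => hc.mem_support x, he⟩
  match p, hp, hlen with
  | .nil, _, _ =>
    obtain ⟨x1, a1, -⟩ := next u u
    obtain ⟨x2, a2, n2⟩ := next u x1
    obtain ⟨x3, a3, n3⟩ := next x1 x2
    obtain ⟨x4, a4, n4⟩ := next x2 x3
    obtain ⟨w, c, hc, -⟩ := nb_walk hm u x1 x2 x3 x4 a1 a2 a3 a4 n2 n3 n4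
    exact ⟨w, c, hc, by simp⟩
  | .cons a1 .nil, _, _ =>
    obtain ⟨x2, a2, n2⟩ := next u v
    obtain ⟨x3, a3, n3⟩ := next v x2
    obtain ⟨x4, a4, n4⟩ := next x2 x3
    obtain ⟨w, c, hc, e1, -⟩ := nb_walk hm u v x2 x3 x4 a1 a2 a3 a4 n2 n3 n4
    exact ⟨w, c, hc, by simpa using e1⟩
  | .cons (v := y1) a1 (.cons a2 .nil), hp, _ =>
    have hn := hp.support_nodup
    simp only [SimpleGraph.Walk.support_cons, SimpleGraph.Walk.support_nil, List.nodup_cons,
      List.mem_cons, List.not_mem_nil, or_false, not_or, List.nodup_nil, not_false_eq_true,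
      and_true] at hn
    obtain ⟨x3, a3, n3⟩ := next y1 v
    obtain ⟨x4, a4, n4⟩ := next v x3
    obtain ⟨w, c, hc, e1, e2, -⟩ := nb_walk hm u y1 v x3 x4 a1 a2 a3 a4 (fun h => hn.1.2 h.symm) n3 n4
    exact ⟨w, c, hc, by simpa using ⟨e1, e2⟩⟩
  | .cons (v := y1) a1 (.cons (v := y2) a2 (.cons a3 .nil)), hp, _ =>
    have hn := hp.support_nodup
    simp only [SimpleGraph.Walk.support_cons, SimpleGraph.Walk.support_nil, List.nodup_cons,
      List.mem_cons, List.not_mem_nil, or_false, not_or, List.nodup_nil, not_false_eq_true,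
      and_true] at hn
    obtain ⟨x4, a4, n4⟩ := next y2 v
    obtain ⟨w, c, hc, e1, e2, e3, -⟩ := nb_walk hm u y1 y2 v x4 a1 a2 a3 a4
      (fun h => hn.1.2.1 h.symm) (fun h => hn.2.1.2 h.symm) n4
    exact ⟨w, c, hc, by simpa using ⟨e1, e2, e3⟩⟩
  | .cons (v := y1) a1 (.cons (v := y2) a2 (.cons (v := y3) a3 (.cons a4 .nil))), hp, _ =>
    have hn := hp.support_nodup
    simp only [SimpleGraph.Walk.support_cons, SimpleGraph.Walk.support_nil, List.nodup_cons,
      List.mem_cons, List.not_mem_nil, or_false, not_or, List.nodup_nil, not_false_eq_true,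
      and_true] at hn
    obtain ⟨w, c, hc, e1, e2, e3, e4⟩ := nb_walk hm u y1 y2 y3 v a1 a2 a3 a4
      (fun h => hn.1.2.1 h.symm) (fun h => hn.2.1.2.1 h.symm) (fun h => hn.2.2.1.2 h.symm)
    exact ⟨w, c, hc, by simpa using ⟨e1, e2, e3, e4⟩⟩
  | .cons _ (.cons _ (.cons _ (.cons _ (.cons _ q)))), _, hlen =>
    simp only [SimpleGraph.Walk.length_cons] at hlen
    omega

/-! ### a path with six vertices on no Hamiltonian cycle -/

/-- The face `10, 12, 14, 16, 18` of the dodecahedron lifts to a `5`-cycle; the path runs along four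
of its vertices. -/
theorem not_ext_six {m : ℕ} (hm : 0 < m) : ¬ PathsExtend (cov m) 6 := by
  intro h
  have mk : ∀ (a b : Fin 20) (k : Fin 3), nb a k = b → vl a k = 0 →
      (cov m).Adj (a, (0 : ZMod m)) (b, 0) := by
    intro a b k h1 h2
    exact ⟨k, h1, by rw [h2]; simp⟩
  have a1 : (cov m).Adj ((2 : Fin 20), (0 : ZMod m)) (12, 0) := mk 2 12 2 (by decide) (by decide)
  have a2 : (cov m).Adj ((12 : Fin 20), (0 : ZMod m)) (14, 0) := mk 12 14 2 (by decide) (by decide)
  have a3 : (cov m).Adj ((14 : Fin 20), (0 : ZMod m)) (16, 0) := mk 14 16 2 (by decide) (by decide)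
  have a4 : (cov m).Adj ((16 : Fin 20), (0 : ZMod m)) (18, 0) := mk 16 18 2 (by decide) (by decide)
  have a5 : (cov m).Adj ((18 : Fin 20), (0 : ZMod m)) (8, 0) := mk 18 8 0 (by decide) (by decide)
  obtain ⟨w, c, hc, -, he⟩ := h _ _ (.cons a1 (.cons a2 (.cons a3 (.cons a4 (.cons a5 .nil))))) (by
    apply SimpleGraph.Walk.IsPath.mk'
    simp only [SimpleGraph.Walk.support_cons, SimpleGraph.Walk.support_nil, List.nodup_cons,
      List.mem_cons, List.not_mem_nil, or_false, not_or, List.nodup_nil, not_false_eq_true,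
      and_true, Prod.mk.injEq]
    decide) (by simp)
  simp only [SimpleGraph.Walk.edges_cons, SimpleGraph.Walk.edges_nil, List.mem_cons,
    List.not_mem_nil, or_false, forall_eq_or_imp, forall_eq] at he
  obtain ⟨e1, e2, e3, e4, e5⟩ := he
  -- the neighbours of the fifth vertex of the face
  have hnb : ∀ y : Fin 20 × ZMod m, (cov m).Adj ((10 : Fin 20), (0 : ZMod m)) y →
      y = (0, 0) ∨ y = (12, 0) ∨ y = (18, 0) := by
    rintro ⟨b, y⟩ ⟨k, h1, h2⟩
    simp only at h1 h2
    have hv : ∀ k, vl 10 k = 0 := by decide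
    rw [hv] at h2
    have hk : ∀ k, nb 10 k = 0 ∨ nb 10 k = 12 ∨ nb 10 k = 18 := by decide
    rcases hk k with h | h | h
    · left; rw [← h1, h, h2]; simp
    · right; left; rw [← h1, h, h2]; simp
    · right; right; rw [← h1, h, h2]; simp
  have ne1 : s(((10 : Fin 20), (0 : ZMod m)), ((12 : Fin 20), (0 : ZMod m))) ∉ c.edges := by
    intro h1
    refine Pool.Agent.R24.ham_no_three c hc (v := (12, 0)) (a := (2, 0)) (b := (14, 0)) (d := (10, 0))
      ?_ ?_ ?_ (by rw [Sym2.eq_swap]; exact e1) e2 (by rw [Sym2.eq_swap]; exact h1)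
    all_goals simp only [ne_eq, Prod.mk.injEq, not_and]; intro h; exact absurd h (by decide)
  have ne2 : s(((10 : Fin 20), (0 : ZMod m)), ((18 : Fin 20), (0 : ZMod m))) ∉ c.edges := by
    intro h1
    refine Pool.Agent.R24.ham_no_three c hc (v := (18, 0)) (a := (16, 0)) (b := (8, 0)) (d := (10, 0))
      ?_ ?_ ?_ (by rw [Sym2.eq_swap]; exact e4) e5 (by rw [Sym2.eq_swap]; exact h1)
    all_goals simp only [ne_eq, Prod.mk.injEq, not_and]; intro h; exact absurd h (by decide)
  obtain ⟨a, b, hab, ha, hb⟩ := Pool.Agent.R24.ham_two c hc ((10 : Fin 20), (0 : ZMod m))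
  have ha' : a = (0, 0) := by
    rcases hnb a (c.adj_of_mem_edges ha) with h1 | h1 | h1
    · exact h1
    · rw [h1] at ha; exact absurd ha ne1
    · rw [h1] at ha; exact absurd ha ne2
  have hb' : b = (0, 0) := by
    rcases hnb b (c.adj_of_mem_edges hb) with h1 | h1 | h1
    · exact h1
    · rw [h1] at hb; exact absurd hb ne1
    · rw [h1] at hb; exact absurd hb ne2
  exact hab (ha'.trans hb'.symm)

theorem he_cov {m : ℕ} [NeZero m] (hm : Odd m) : he (cov m) = 5 := by
  have hmpos : 0 < m := hm.pos
  have hcard : Fintype.card (Fin 20 × ZMod m) = 20 * m := by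
    rw [Fintype.card_prod, Fintype.card_fin, ZMod.card]
  unfold he
  apply le_antisymm
  · apply csSup_le
    · exact ⟨5, by norm_num, by rw [hcard]; omega, fun i h1 h5 => ext_le_five hm i h1 h5⟩
    · rintro k ⟨-, -, h⟩
      by_contra hk
      exact not_ext_six hmpos (h 6 (by norm_num) (by omega))
  · apply le_csSup
    · refine ⟨20 * m, ?_⟩
      rintro k ⟨-, h, -⟩
      rwa [hcard] at h
    · exact ⟨by norm_num, by rw [hcard]; omega, fun i h1 h5 => ext_le_five hm i h1 h5⟩

/-- **Infinitely many cubic graphs with Hamiltonian extension number `5`.**  For every odd `m` there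
is a `3`-regular Hamiltonian graph on `20 m` vertices whose Hamiltonian extension number is `5`. -/
theorem result : ∀ m : ℕ, Odd m → ∃ (V : Type) (_ : Fintype V) (_ : DecidableEq V)
    (G : SimpleGraph V), Fintype.card V = 20 * m ∧ (∀ v, (G.neighborSet v).ncard = 3) ∧
      G.IsHamiltonian ∧ he G = 5 := by
  intro m hm
  have : NeZero m := ⟨hm.pos.ne'⟩
  refine ⟨Fin 20 × ZMod m, inferInstance, inferInstance, cov m, ?_, ?_, ?_, he_cov hm⟩
  · rw [Fintype.card_prod, Fintype.card_fin, ZMod.card]
  · rintro ⟨a, x⟩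
    have : (cov m).neighborSet (a, x) =
        Set.range (fun k : Fin 3 => (nb a k, x + ((vl a k : ℤ) : ZMod m))) := by
      ext ⟨b, y⟩
      simp only [SimpleGraph.mem_neighborSet, cov_adj, Set.mem_range, Prod.mk.injEq]
      constructor
      · rintro ⟨k, h1, h2⟩; exact ⟨k, h1, h2.symm⟩
      · rintro ⟨k, h1, h2⟩; exact ⟨k, h1, h2.symm⟩
    rw [this, ← Set.image_univ, Set.ncard_image_of_injective]
    · simp [Set.ncard_univ]
    · intro k l h
      exact nb_inj a k l (congrArg Prod.fst h)
  · intro _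
    obtain ⟨u, c, hc, -⟩ := lift_ham hm (j := 0) (by norm_num) 0
    exact ⟨u, c, hc⟩

end Pool.Agent.Results.MP_b9f640_co.CyclicCovers
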